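import Mathlib
import Pool.Prelude.Def_F_035fc316
import Pool.Agent.Lib.MP_136524_co.Main

/-!
# Tuza's problem: the covering number is at most 11/4 times the packing number
-/

open N05bd4eca

namespace Pool.Agent.Results.MP_136524_co.ElevenFourths

open Finset Pool.Agent.Lib.MP_136524_co

/-- Every finite simple graph `G` satisfies `τ(G) ≤ (11/4) ν(G)`, where `τ(G)` is the least size of
a set of edges meeting every triangle and `ν(G)` is the largest number of pairwise edge-disjoint
triangles. -/
theorem result {V : Type*} [Fintype V] (G : SimpleGraph V) :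
    4 * triangleCoverNumber G ≤ 11 * trianglePackingNumber G := by
  classical
  set F : Finset (Finset V) := univ.filter (fun t => G.IsNClique 3 t) with hF
  have hFm : ∀ t, t ∈ F ↔ G.IsNClique 3 t := by
    intro t; rw [hF, mem_filter]; simp
  have h3 : ∀ t ∈ F, t.card = 3 := fun t ht => ((hFm t).1 ht).card_eq
  obtain ⟨B, hB⟩ := exists_MaxP F (fun _ => 1)
  have hmain := main_bound h3 hB
  -- the packing number
  have hnu : B.card ≤ trianglePackingNumber G := by
    unfold trianglePackingNumber
    apply le_csSup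
    · refine ⟨Fintype.card (Finset V), ?_⟩
      rintro n ⟨T, _, rfl⟩
      rw [← Nat.card_eq_fintype_card]
      exact Set.ncard_le_card T
    · refine ⟨(B : Set (Finset V)), ⟨?_, ?_⟩, Set.ncard_coe_finset B⟩
      · intro t ht
        exact (hFm t).1 (hB.pk.1 (mem_coe.1 ht))
      · intro t₁ h₁ t₂ h₂ hne
        have h := hB.pk.2 t₁ (mem_coe.1 h₁) t₂ (mem_coe.1 h₂) hne
        rw [Set.ncard_le_one (Set.toFinite _)]
        intro a ha b hb
        exact h a (mem_coe.1 ha.1) b (mem_coe.1 hb.1) (mem_coe.1 ha.2) (mem_coe.1 hb.2)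
  -- the covering number
  have htau : triangleCoverNumber G ≤ tau F := by
    obtain ⟨C, hC, hCc⟩ := exists_cover h3
    rw [← hCc]
    set D : Set (Sym2 V) := {e | e ∈ G.edgeSet ∧ e.toFinset ∈ C} with hD
    have hcov : IsTriangleCover G D := by
      refine ⟨fun e he => he.1, ?_⟩
      intro t ht
      obtain ⟨e, he, het⟩ := hC.2 t ((hFm t).2 ht)
      obtain ⟨u, v, huv, rfl⟩ := card_eq_two.1 (hC.1 e he)
      have hu : u ∈ t := het (by simp)
      have hv : v ∈ t := het (by simp)
      refine ⟨s(u, v), ⟨?_, ?_⟩, ?_⟩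
      · rw [SimpleGraph.mem_edgeSet]
        exact ht.isClique (mem_coe.2 hu) (mem_coe.2 hv) huv
      · rw [Sym2.toFinset_mk_eq]
        exact he
      · intro x hx
        rw [Sym2.mem_iff] at hx
        rcases hx with rfl | rfl <;> assumption
    have h1 : triangleCoverNumber G ≤ D.ncard := Nat.sInf_le ⟨D, hcov, rfl⟩
    refine h1.trans ?_
    have hinj : Set.InjOn (fun e : Sym2 V => e.toFinset) D := by
      intro e _ e' _ h
      apply Sym2.ext
      intro x
      rw [← Sym2.mem_toFinset, ← Sym2.mem_toFinset]
      simp only at h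
      rw [h]
    rw [← hinj.ncard_image, ← Set.ncard_coe_finset C]
    apply Set.ncard_le_ncard _ (Set.toFinite _)
    rintro _ ⟨e, he, rfl⟩
    exact mem_coe.2 he.2
  omega

end Pool.Agent.Results.MP_136524_co.ElevenFourths
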